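import Pool.Agent.Helper93.ET.St

/-!
# Project ET (MP_b1e6de_al), module IDM: removing the zero section
-/

set_option autoImplicit false

noncomputable section

namespace Pool.Agent.Helper84.ET

open MvPolynomial Matrix Pool.Agent.Helper93.ET

section
variable {A : Type} [CommRing A] {n q : ℕ} (F : Matrix (Fin n) (Fin n) A)

/-- classes of the variables -/
def xv (q : ℕ) (j : Fin n) : EF q F := Ideal.Quotient.mk (relF q F) (X j)

theorem xv_rel (j : Fin n) : xv F q j = ∑ i, algebraMap A (EF q F) (F i j) * xv F q i ^ q := by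
  have h : Ideal.Quotient.mk (relF q F) (X j - ∑ i, C (F i j) * X i ^ q) = 0 :=
    Ideal.Quotient.eq_zero_iff_mem.2 (Ideal.subset_span ⟨j, rfl⟩)
  rw [map_sub, sub_eq_zero, map_sum] at h
  rw [xv, h]
  refine Finset.sum_congr rfl fun i _ => ?_
  rw [map_mul, map_pow]
  rfl

/-- the zero section -/
def aug (hq : 2 ≤ q) : EF q F →ₐ[A] A :=
  Ideal.Quotient.liftₐ (relF q F) (MvPolynomial.aeval (fun _ => (0 : A))) (by
    intro a ha
    have hle : relF q F ≤ RingHom.ker (MvPolynomial.aeval (fun _ : Fin n => (0 : A)) : MvPolynomial (Fin n) A →ₐ[A] A) := by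
      rw [relF, Ideal.span_le]
      rintro _ ⟨j, rfl⟩
      simp only [SetLike.mem_coe, RingHom.mem_ker, map_sub, map_sum, map_mul, map_pow, MvPolynomial.aeval_X]
      rw [Finset.sum_eq_zero, sub_zero]
      intro i _
      rw [zero_pow (by omega), mul_zero]
    exact hle ha)

theorem aug_xv (hq : 2 ≤ q) (j : Fin n) : aug F hq (xv F q j) = 0 := by
  change aug F hq (Ideal.Quotient.mk (relF q F) (X j)) = 0
  rw [aug, Ideal.Quotient.liftₐ_apply, Ideal.Quotient.lift_mk]
  simp

/-- the ideal of the zero section -/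
def aa (q : ℕ) : Ideal (EF q F) := Ideal.span (Set.range (xv F q))

theorem sub_aug (hq : 2 ≤ q) (z : EF q F) : z - algebraMap A (EF q F) (aug F hq z) ∈ aa F q := by
  have h : (Ideal.Quotient.mkₐ A (aa F q)) = (Algebra.ofId A (EF q F ⧸ aa F q)).comp (aug F hq) := by
    refine Ideal.Quotient.algHom_ext _ (MvPolynomial.algHom_ext fun j => ?_)
    have h1 : aug F hq (xv F q j) = 0 := aug_xv F hq j
    have h2 : Ideal.Quotient.mk (aa F q) (xv F q j) = 0 :=
      Ideal.Quotient.eq_zero_iff_mem.2 (Ideal.subset_span ⟨j, rfl⟩)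
    change Ideal.Quotient.mk (aa F q) (xv F q j) = Algebra.ofId A (EF q F ⧸ aa F q) (aug F hq (xv F q j))
    rw [h1, h2, map_zero]
  have h1 := DFunLike.congr_fun h z
  rw [← Ideal.Quotient.eq]
  exact h1

theorem aa_le_ker (hq : 2 ≤ q) {z : EF q F} (hz : z ∈ aa F q) : aug F hq z = 0 := by
  have h : aa F q ≤ RingHom.ker (aug F hq) := by
    rw [aa, Ideal.span_le]
    rintro _ ⟨j, rfl⟩
    exact aug_xv F hq j
  exact h hz

theorem aa_idem (hq : 2 ≤ q) : IsIdempotentElem (aa F q) := by
  refine le_antisymm Ideal.mul_le_left ?_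
  conv_lhs => rw [aa]
  rw [Ideal.span_le]
  rintro _ ⟨j, rfl⟩
  rw [xv_rel]
  refine Ideal.sum_mem _ fun i _ => Ideal.mul_mem_left _ _ ?_
  have h1 : xv F q i ∈ aa F q := Ideal.subset_span ⟨i, rfl⟩
  obtain ⟨k, rfl⟩ : ∃ k, q = k + 2 := ⟨q - 2, by omega⟩
  rw [pow_add, pow_two]
  exact Ideal.mul_mem_left _ _ (Ideal.mul_mem_mul h1 h1)

end

theorem hIDM : StIDM := by
  intro A _ n q hq F
  obtain ⟨ε, hε, hae⟩ := (Ideal.isIdempotentElem_iff_of_fg (aa F q)
    (Submodule.fg_span (Set.finite_range _))).1 (aa_idem F hq)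
  have hεa : ε ∈ aa F q := by rw [hae]; exact Ideal.mem_span_singleton_self ε
  let I : Ideal (EF q F) := Ideal.span {1 - ε}
  have hI : ∀ z : EF q F, z ∈ I → ε * z = 0 := by
    intro z hz
    obtain ⟨w, rfl⟩ := Ideal.mem_span_singleton'.1 hz
    have : ε * ε = ε := hε
    linear_combination (-w) * this
  have hA : ∀ z : EF q F, z ∈ aa F q → ε * z = z := by
    intro z hz
    rw [hae] at hz
    obtain ⟨w, rfl⟩ := Ideal.mem_span_singleton'.1 hz
    have : ε * ε = ε := hε
    linear_combination w * this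
  refine ⟨EF q F ⧸ I, inferInstance, inferInstance, fun j => Ideal.Quotient.mk I (xv F q j), ⟨?_⟩, ?_, ?_⟩
  · refine AlgEquiv.ofBijective ((aug F hq).prod (Ideal.Quotient.mkₐ A I)) ⟨?_, ?_⟩
    · rw [injective_iff_map_eq_zero]
      intro z hz
      have h1 : aug F hq z = 0 := congrArg Prod.fst hz
      have h2 : Ideal.Quotient.mk I z = 0 := congrArg Prod.snd hz
      have h3 := sub_aug F hq z
      rw [h1, map_zero, sub_zero] at h3
      rw [← hA z h3]
      exact hI z (Ideal.Quotient.eq_zero_iff_mem.1 h2)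
    · rintro ⟨a, b⟩
      obtain ⟨u, rfl⟩ := Ideal.Quotient.mk_surjective b
      refine ⟨(1 - ε) * algebraMap A (EF q F) a + ε * u, ?_⟩
      refine Prod.ext ?_ ?_
      · change aug F hq _ = a
        rw [map_add, map_mul, map_mul, map_sub, aa_le_ker F hq hεa, AlgHom.commutes, map_one]
        simp
      · change Ideal.Quotient.mk I _ = Ideal.Quotient.mk I u
        rw [Ideal.Quotient.eq]
        have : (1 - ε) * algebraMap A (EF q F) a + ε * u - u = (algebraMap A (EF q F) a - u) * (1 - ε) := by ring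
        rw [this]
        exact Ideal.mul_mem_left _ _ (Ideal.mem_span_singleton_self _)
  · have h1 : Ideal.span (Set.range fun j => Ideal.Quotient.mk I (xv F q j)) = (aa F q).map (Ideal.Quotient.mk I) := by
      rw [aa, Ideal.map_span, ← Set.range_comp]
      rfl
    rw [h1, Ideal.eq_top_iff_one]
    have h2 : Ideal.Quotient.mk I ε = 1 := by
      have h3 : Ideal.Quotient.mk I (1 - ε) = 0 :=
        Ideal.Quotient.eq_zero_iff_mem.2 (Ideal.mem_span_singleton_self _)
      rw [map_sub, map_one, sub_eq_zero] at h3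
      exact h3.symm
    rw [← h2]
    exact Ideal.mem_map_of_mem _ hεa
  · intro j
    have h1 := congrArg (Ideal.Quotient.mk I) (xv_rel F (q := q) j)
    rw [map_sum] at h1
    change Ideal.Quotient.mk I (xv F q j) = _
    rw [h1]
    refine Finset.sum_congr rfl fun i _ => ?_
    rw [map_mul, map_pow]
    rfl

end Pool.Agent.Helper84.ET
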